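import Mathlib

namespace Pool.Agent.Results.MP_811ee8_lc.Quasi

/-- Boolean formulas over `V`. -/
inductive Form (V : Type) : Type
  | var (p : V) : Form V
  | tt : Form V
  | not (a : Form V) : Form V
  | and (a b : Form V) : Form V
  | or (a b : Form V) : Form V

/-- Satisfaction of a formula by a state. -/
def Form.sat {V : Type} (s : Finset V) : Form V → Prop
  | .var p => p ∈ s
  | .tt => True
  | .not a => ¬ a.sat s
  | .and a b => a.sat s ∧ b.sat s
  | .or a b => a.sat s ∨ b.sat s

/-- Number of symbols of a formula (a binary connective counts with its two parentheses). -/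
def Form.len {V : Type} : Form V → ℕ
  | .var _ => 1
  | .tt => 1
  | .not a => a.len + 1
  | .and a b => a.len + b.len + 3
  | .or a b => a.len + b.len + 3

/-- Mental programs over `V`. -/
inductive Prog (V : Type) : Type
  | setT (p : V) : Prog V
  | setF (p : V) : Prog V
  | test (b : Form V) : Prog V
  | union (a b : Prog V) : Prog V
  | seq (a b : Prog V) : Prog V
  | inter (a b : Prog V) : Prog V

/-- The relation denoted by a program. -/
def Prog.rel {V : Type} [DecidableEq V] : Prog V → Finset V → Finset V → Prop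
  | .setT p, s, t => t = insert p s
  | .setF p, s, t => t = s.erase p
  | .test b, s, t => t = s ∧ b.sat s
  | .union a b, s, t => a.rel s t ∨ b.rel s t
  | .seq a b, s, t => ∃ u, a.rel s u ∧ b.rel u t
  | .inter a b, s, t => a.rel s t ∧ b.rel s t

/-- Number of symbols of a program (an assignment has three symbols, a binary operator counts
with its two parentheses). -/
def Prog.len {V : Type} : Prog V → ℕ
  | .setT _ => 3
  | .setF _ => 3
  | .test b => b.len + 1
  | .union a b => a.len + b.len + 3
  | .seq a b => a.len + b.len + 3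
  | .inter a b => a.len + b.len + 3

/-- A node: a leaf with its value, or a variable with its low and high children. -/
inductive Node (W : Type) (N : ℕ) : Type
  | leaf (b : Bool) : Node W N
  | branch (x : W) (lo hi : Fin N) : Node W N

/-- An ordered binary decision diagram with `N` nodes over the variables `W`. -/
structure BDD (W : Type) (N : ℕ) where
  node : Fin N → Node W N
  root : Fin N
  pos : W → ℕ
  pos_inj : Function.Injective pos
  ordered : ∀ i x lo hi, node i = .branch x lo hi →
    ∀ y lo' hi', (node lo = .branch y lo' hi' ∨ node hi = .branch y lo' hi') → pos x < pos y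

/-- The assignment `a` leads from node `i` to a leaf with value true. -/
inductive BDD.Acc {W : Type} {N : ℕ} (D : BDD W N) (a : W → Prop) : Fin N → Prop
  | leaf (i) : D.node i = .leaf true → D.Acc a i
  | high (i x lo hi) : D.node i = .branch x lo hi → a x → D.Acc a hi → D.Acc a i
  | low (i x lo hi) : D.node i = .branch x lo hi → ¬ a x → D.Acc a lo → D.Acc a i

/-- The assignment given by `s` on `V` and by `t` on the primed copy. -/
def asg {V : Type} (s t : Finset V) : V ⊕ V → Prop
  | .inl p => p ∈ s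
  | .inr p => p ∈ t

/-- The relation represented by a BDD over `V` and its primed copy. -/
def BDD.R {V : Type} {N : ℕ} (D : BDD (V ⊕ V) N) (s t : Finset V) : Prop :=
  D.Acc (asg s t) D.root

section
variable {V : Type} [DecidableEq V]

def Ex (R : Finset V → Finset V → Prop) (L : ℕ) : Prop :=
  ∃ π : Prog V, (∀ s t, π.rel s t ↔ R s t) ∧ π.len ≤ L

theorem Ex.of {R R' : Finset V → Finset V → Prop} {L L' : ℕ} (h : Ex R L)
    (hR : ∀ s t, R s t ↔ R' s t) (hL : L ≤ L') : Ex R' L' := by
  obtain ⟨π, h1, h2⟩ := h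
  exact ⟨π, fun s t => (h1 s t).trans (hR s t), h2.trans hL⟩

theorem Ex.or {R R' : Finset V → Finset V → Prop} {L L' : ℕ} (h : Ex R L) (h' : Ex R' L') :
    Ex (fun s t => R s t ∨ R' s t) (L + L' + 3) := by
  obtain ⟨π, h1, h2⟩ := h
  obtain ⟨π', h1', h2'⟩ := h'
  exact ⟨.union π π', fun s t => by simp [Prog.rel, h1, h1'], by simp only [Prog.len]; omega⟩

theorem Ex.and {R R' : Finset V → Finset V → Prop} {L L' : ℕ} (h : Ex R L) (h' : Ex R' L') :
    Ex (fun s t => R s t ∧ R' s t) (L + L' + 3) := by
  obtain ⟨π, h1, h2⟩ := h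
  obtain ⟨π', h1', h2'⟩ := h'
  exact ⟨.inter π π', fun s t => by simp [Prog.rel, h1, h1'], by simp only [Prog.len]; omega⟩

theorem ex_false : Ex (fun (_ _ : Finset V) => False) 3 :=
  ⟨.test (.not .tt), fun s t => by simp [Prog.rel, Form.sat], by simp [Prog.len, Form.len]⟩

theorem ex_big {ι : Type} (R : ι → Finset V → Finset V → Prop) (L : ℕ) (l : List ι)
    (h : ∀ k, Ex (R k) L) : Ex (fun s t => ∃ k ∈ l, R k s t) (3 + l.length * (L + 3)) := by
  induction l with
  | nil => exact ex_false.of (by simp) (by simp)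
  | cons k l ih =>
    refine ((h k).or ih).of (fun s t => by simp) ?_
    simp only [List.length_cons]
    nlinarith

theorem ex_havoc (l : List V) :
    Ex (fun s t : Finset V => ∀ q, q ∉ l → (q ∈ s ↔ q ∈ t)) (2 + 12 * l.length) := by
  induction l with
  | nil =>
    refine ⟨.test .tt, fun s t => ?_, by simp [Prog.len, Form.len]⟩
    simp only [Prog.rel, Form.sat, and_true, List.not_mem_nil, not_false_eq_true, forall_const]
    constructor
    · rintro rfl q; rfl
    · intro h; ext q; exact (h q).symm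
  | cons p l ih =>
    obtain ⟨π, h1, h2⟩ := ih
    refine ⟨.seq (.union (.setT p) (.setF p)) π, fun s t => ?_, ?_⟩
    · simp only [Prog.rel, h1]
      constructor
      · rintro ⟨u, hu, h⟩ q hq
        simp only [List.mem_cons, not_or] at hq
        rw [← h q hq.2]
        rcases hu with rfl | rfl <;> simp [hq.1]
      · intro h
        by_cases hp : p ∈ t
        · refine ⟨_, Or.inl rfl, fun q hq => ?_⟩
          by_cases hqp : q = p
          · subst hqp; simp [hp]
          · rw [← h q (by simp [hqp, hq])]; simp [hqp]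
        · refine ⟨_, Or.inr rfl, fun q hq => ?_⟩
          by_cases hqp : q = p
          · subst hqp; simp [hp]
          · rw [← h q (by simp [hqp, hq])]; simp [hqp]
    · simp only [Prog.len, List.length_cons]; omega

variable [Fintype V]

theorem ex_true : Ex (fun (_ _ : Finset V) => True) (2 + 12 * Fintype.card V) :=
  (ex_havoc (Finset.univ : Finset V).toList).of (by simp) (by simp)

theorem ex_left (b : Form V) :
    Ex (fun (s _ : Finset V) => b.sat s) (b.len + 6 + 12 * Fintype.card V) := by
  obtain ⟨π, h1, h2⟩ := ex_true (V := V)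
  exact ⟨.seq (.test b) π, fun s t => by simp [Prog.rel, h1], by simp only [Prog.len]; omega⟩

theorem ex_right (b : Form V) :
    Ex (fun (_ t : Finset V) => b.sat t) (b.len + 6 + 12 * Fintype.card V) := by
  obtain ⟨π, h1, h2⟩ := ex_true (V := V)
  refine ⟨.seq π (.test b), fun s t => ?_, by simp only [Prog.len]; omega⟩
  simp only [Prog.rel, h1, true_and]
  exact ⟨fun ⟨u, hu, h⟩ => hu ▸ h, fun h => ⟨t, rfl, h⟩⟩

theorem ex_pos (x : V ⊕ V) (c : Prop) :
    Ex (fun s t : Finset V => asg s t x ∧ c) (8 + 12 * Fintype.card V) := by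
  by_cases hc : c
  · cases x with
    | inl p => exact (ex_left (.var p)).of (by simp [asg, Form.sat, hc]) (by simp [Form.len])
    | inr p => exact (ex_right (.var p)).of (by simp [asg, Form.sat, hc]) (by simp [Form.len])
  · exact ex_false.of (by simp [hc]) (by omega)

theorem ex_neg (x : V ⊕ V) (c : Prop) :
    Ex (fun s t : Finset V => ¬ asg s t x ∧ c) (8 + 12 * Fintype.card V) := by
  by_cases hc : c
  · cases x with
    | inl p =>
      exact (ex_left (.not (.var p))).of (by simp [asg, Form.sat, hc]) (by simp [Form.len])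
    | inr p =>
      exact (ex_right (.not (.var p))).of (by simp [asg, Form.sat, hc]) (by simp [Form.len])
  · exact ex_false.of (by simp [hc]) (by omega)

end

open Classical in
noncomputable def step {W : Type} {N : ℕ} (D : BDD W N) (a : W → Prop) (i : Fin N) : Fin N :=
  match D.node i with
  | .leaf _ => i
  | .branch x lo hi => if a x then hi else lo

theorem acc_iff {W : Type} {N : ℕ} (D : BDD W N) (a : W → Prop) (i : Fin N) :
    D.Acc a i ↔ ∃ k, D.node ((step D a)^[k] i) = .leaf true := by
  constructor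
  · intro h
    induction h with
    | leaf i h => exact ⟨0, h⟩
    | high i x lo hi h hx _ ih =>
      obtain ⟨k, hk⟩ := ih
      refine ⟨k + 1, ?_⟩
      rw [Function.iterate_succ_apply]
      simpa [step, h, hx] using hk
    | low i x lo hi h hx _ ih =>
      obtain ⟨k, hk⟩ := ih
      refine ⟨k + 1, ?_⟩
      rw [Function.iterate_succ_apply]
      simpa [step, h, hx] using hk
  · rintro ⟨k, hk⟩
    induction k generalizing i with
    | zero => exact BDD.Acc.leaf i hk
    | succ k ih =>
      rw [Function.iterate_succ_apply] at hk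
      have h2 := ih _ hk
      cases h : D.node i with
      | leaf b => simpa [step, h] using h2
      | branch x lo hi =>
        by_cases hx : a x
        · exact BDD.Acc.high i x lo hi h hx (by simpa [step, h, hx] using h2)
        · exact BDD.Acc.low i x lo hi h hx (by simpa [step, h, hx] using h2)

theorem short {N : ℕ} (f : Fin N → Fin N) (P : Fin N → Prop) (hP : ∀ j, P j → f j = j)
    (i : Fin N) (M : ℕ) (hM : N ≤ M) : (∃ k, P (f^[k] i)) ↔ P (f^[M] i) := by
  classical
  refine ⟨fun h => ?_, fun h => ⟨M, h⟩⟩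
  have hk := Nat.find_spec h
  have hle : Nat.find h ≤ N := by
    by_contra hlt
    push Not at hlt
    obtain ⟨a, b, hab, h1⟩ := Fintype.exists_ne_map_eq_of_card_lt
      (fun j : Fin (N + 1) => f^[j.val] i) (by simp)
    have key : ∀ a b : ℕ, a < b → b ≤ N → f^[a] i = f^[b] i → False := by
      intro a b hab hb h1
      have e : Nat.find h = (Nat.find h - b) + b := by omega
      have h2 : P (f^[(Nat.find h - b) + a] i) := by
        rw [Function.iterate_add_apply, h1, ← Function.iterate_add_apply, ← e]; exact hk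
      exact Nat.find_min h (by omega) h2
    rcases lt_or_gt_of_ne (fun e => hab (Fin.ext e)) with h2 | h2
    · exact key _ _ h2 (by have := b.2; omega) h1
    · exact key _ _ h2 (by have := a.2; omega) h1.symm
  have e : M = (M - Nat.find h) + Nat.find h := by omega
  rw [e, Function.iterate_add_apply, Function.iterate_fixed (hP _ hk)]
  exact hk

theorem ex_reach {V : Type} [DecidableEq V] [Fintype V] {N : ℕ} (D : BDD (V ⊕ V) N) (m : ℕ) :
    ∀ i j : Fin N, Ex (fun s t : Finset V => (step D (asg s t))^[2 ^ m] i = j)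
      (24 * (Fintype.card V + 1) * (4 * N) ^ m) := by
  induction m with
  | zero =>
    intro i j
    cases h : D.node i with
    | leaf b =>
      by_cases hij : i = j
      · exact ex_true.of (by simp [step, h, hij.symm]) (by simp; omega)
      · exact ex_false.of (by simp [step, h, hij]) (by simp; omega)
    | branch x lo hi =>
      refine ((ex_pos x (hi = j)).or (ex_neg x (lo = j))).of (fun s t => ?_) (by simp; omega)
      by_cases hx : asg s t x <;> simp [step, h, hx]
  | succ m ih =>
    intro i j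
    have hN : 1 ≤ N := by have := i.2; omega
    refine (ex_big _ _ (List.finRange N) (fun k => (ih i k).and (ih k j))).of (fun s t => ?_) ?_
    · rw [pow_succ, mul_two, Function.iterate_add_apply]
      simp
    · have h1 : 1 ≤ (4 * N) ^ m := Nat.one_le_pow _ _ (by omega)
      have h2 : 24 ≤ 24 * (Fintype.card V + 1) * (4 * N) ^ m := by nlinarith
      rw [pow_succ, ← mul_assoc, List.length_finRange]
      generalize 24 * (Fintype.card V + 1) * (4 * N) ^ m = L at h2 ⊢
      nlinarith

theorem upper (V : Type) [Fintype V] [DecidableEq V] (N : ℕ) (D : BDD (V ⊕ V) N) :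
    ∃ π : Prog V, (∀ s t : Finset V, π.rel s t ↔ D.R s t) ∧
      π.len ≤ 24 * (Fintype.card V + 1) * (4 * N) ^ (Nat.clog 2 N + 1) := by
  have hN : 1 ≤ N := by have := D.root.2; omega
  have h0 : ∀ j : Fin N, Ex (fun s t : Finset V =>
      (step D (asg s t))^[2 ^ Nat.clog 2 N] D.root = j ∧ D.node j = .leaf true)
      (24 * (Fintype.card V + 1) * (4 * N) ^ Nat.clog 2 N) := by
    intro j
    by_cases hj : D.node j = .leaf true
    · exact (ex_reach D _ D.root j).of (by simp [hj]) le_rfl
    · refine ex_false.of (by simp [hj]) ?_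
      have h1 : 1 ≤ (4 * N) ^ Nat.clog 2 N := Nat.one_le_pow _ _ (by omega)
      nlinarith
  refine (ex_big _ _ (List.finRange N) h0).of (fun s t => ?_) ?_
  · rw [BDD.R, acc_iff, short (step D (asg s t)) (fun j => D.node j = .leaf true)
      (fun j hj => by simp [step, hj]) D.root (2 ^ Nat.clog 2 N) (Nat.le_pow_clog (by norm_num) N)]
    simp
  · have h1 : 1 ≤ (4 * N) ^ Nat.clog 2 N := Nat.one_le_pow _ _ (by omega)
    have h2 : 24 ≤ 24 * (Fintype.card V + 1) * (4 * N) ^ Nat.clog 2 N := by nlinarith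
    rw [pow_succ, ← mul_assoc, List.length_finRange]
    generalize 24 * (Fintype.card V + 1) * (4 * N) ^ Nat.clog 2 N = L at h2 ⊢
    nlinarith

theorem asym (c δ : ℝ) (hc : 0 < c) (hδ : 0 < δ) : ∃ M0 : ℕ, ∀ M n N : ℕ, M0 ≤ M → n + 1 ≤ M →
    N ≤ M → ((24 * (n + 1) * (4 * N) ^ (Nat.clog 2 N + 1) : ℕ) : ℝ) < 2 ^ (c * (M : ℝ) ^ δ) := by
  have hr : (1 : ℝ) < 2 ^ δ := Real.one_lt_rpow (by norm_num) hδ
  obtain ⟨J, hJ⟩ := Filter.eventually_atTop.1
    ((tendsto_pow_const_div_const_pow_of_one_lt 2 hr).eventually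
      (gt_mem_nhds (show (0 : ℝ) < c / 20 by positivity)))
  refine ⟨2 ^ (J + 1) + 1, fun M n N hM hn hN => ?_⟩
  have hM1 : 1 < M := by have : 1 ≤ 2 ^ (J + 1) := Nat.one_le_two_pow; omega
  have hup : M ≤ 2 ^ Nat.clog 2 M := Nat.le_pow_clog (by norm_num) M
  have hk : J + 1 < Nat.clog 2 M := by
    have : 2 ^ (J + 1) < 2 ^ Nat.clog 2 M := by omega
    exact (Nat.pow_lt_pow_iff_right (by norm_num)).1 this
  have hlow : 2 ^ (Nat.clog 2 M).pred < M := Nat.pow_pred_clog_lt_self (by norm_num) hM1
  have hmono : Nat.clog 2 N ≤ Nat.clog 2 M := Nat.clog_mono_right 2 hN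
  obtain ⟨j, hj⟩ : ∃ j, Nat.clog 2 M = j + 1 := ⟨Nat.clog 2 M - 1, by omega⟩
  rw [hj] at hup hk hlow hmono
  simp only [Nat.pred_succ] at hlow
  have hj1 : 1 ≤ j := by omega
  have a1 : 24 * (n + 1) ≤ 2 ^ (j + 6) := by
    have : 2 ^ (j + 6) = 32 * 2 ^ (j + 1) := by ring
    omega
  have a2 : 4 * N ≤ 2 ^ (j + 3) := by
    have : 2 ^ (j + 3) = 4 * 2 ^ (j + 1) := by ring
    omega
  have a3 : (4 * N) ^ (Nat.clog 2 N + 1) ≤ (2 ^ (j + 3)) ^ (j + 2) :=
    (Nat.pow_le_pow_left a2 _).trans (Nat.pow_le_pow_right (by positivity) (by omega))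
  have a4 : 24 * (n + 1) * (4 * N) ^ (Nat.clog 2 N + 1) ≤ 2 ^ (20 * j ^ 2) := by
    refine (Nat.mul_le_mul a1 a3).trans ?_
    rw [← pow_mul, ← pow_add]
    exact Nat.pow_le_pow_right (by norm_num) (by nlinarith)
  have b1 : ((2 : ℝ) ^ δ) ^ j ≤ (M : ℝ) ^ δ := by
    rw [← Real.rpow_natCast, ← Real.rpow_mul (by norm_num), mul_comm,
      Real.rpow_mul (by norm_num), Real.rpow_natCast]
    refine Real.rpow_le_rpow (by positivity) ?_ hδ.le
    exact_mod_cast hlow.le
  have b2 := hJ j (by omega)
  have b3 : (0 : ℝ) < ((2 : ℝ) ^ δ) ^ j := by positivity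
  rw [div_lt_iff₀ b3] at b2
  have b4 : ((20 * j ^ 2 : ℕ) : ℝ) < c * (M : ℝ) ^ δ := by
    push_cast
    nlinarith [mul_le_mul_of_nonneg_left b1 hc.le]
  calc ((24 * (n + 1) * (4 * N) ^ (Nat.clog 2 N + 1) : ℕ) : ℝ)
      ≤ ((2 ^ (20 * j ^ 2) : ℕ) : ℝ) := by exact_mod_cast a4
    _ = (2 : ℝ) ^ ((20 * j ^ 2 : ℕ) : ℝ) := by rw [Real.rpow_natCast]; push_cast; rfl
    _ < 2 ^ (c * (M : ℝ) ^ δ) := Real.rpow_lt_rpow_of_exponent_lt (by norm_num) b4

theorem lower {V : Type} [DecidableEq V] (π : Prog V) :
    ∀ s t : Finset V, π.rel s t → (t \ s).card ≤ π.len := by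
  induction π with
  | setT p =>
    rintro s t rfl
    have : insert p s \ s ⊆ {p} := by
      intro q hq
      simp only [Finset.mem_sdiff, Finset.mem_insert] at hq
      simpa [hq.2] using hq.1
    exact (Finset.card_le_card this).trans (by simp [Prog.len])
  | setF p =>
    rintro s t rfl
    rw [Finset.sdiff_eq_empty_iff_subset.2 (Finset.erase_subset p s)]
    simp
  | test b => rintro s t ⟨rfl, -⟩; simp
  | union a b iha ihb =>
    rintro s t (h | h)
    · exact (iha s t h).trans (by simp only [Prog.len]; omega)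
    · exact (ihb s t h).trans (by simp only [Prog.len]; omega)
  | seq a b iha ihb =>
    rintro s t ⟨u, h1, h2⟩
    have h3 : t \ s ⊆ (u \ s) ∪ (t \ u) := by
      intro q hq
      simp only [Finset.mem_sdiff, Finset.mem_union] at hq ⊢
      tauto
    have := (Finset.card_le_card h3).trans (Finset.card_union_le _ _)
    have := iha s u h1
    have := ihb u t h2
    simp only [Prog.len]; omega
  | inter a b iha _ =>
    rintro s t ⟨h, -⟩
    exact (iha s t h).trans (by simp only [Prog.len]; omega)

theorem result :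
    (∃ τ : (V : Type) → [Fintype V] → [DecidableEq V] → (N : ℕ) → BDD (V ⊕ V) N → Prog V,
      (∀ (V : Type) [Fintype V] [DecidableEq V] (N : ℕ) (D : BDD (V ⊕ V) N) (s t : Finset V),
        (τ V N D).rel s t ↔ D.R s t) ∧
      (∀ (V : Type) [Fintype V] [DecidableEq V] (N : ℕ) (D : BDD (V ⊕ V) N),
        (τ V N D).len ≤ 24 * (Fintype.card V + 1) * (4 * N) ^ (Nat.clog 2 N + 1)) ∧
      (∀ (k : ℕ) (c δ : ℝ), 0 < c → 0 < δ → ∃ N0 : ℕ,
        ∀ (V : Type) [Fintype V] [DecidableEq V] (N : ℕ) (D : BDD (V ⊕ V) N),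
          N0 ≤ N → Fintype.card V ≤ N ^ k →
          ((τ V N D).len : ℝ) < 2 ^ (c * (N : ℝ) ^ δ))) ∧
    (∀ (V : Type) [Fintype V] [DecidableEq V] (π : Prog V),
      π.rel ∅ Finset.univ → Fintype.card V ≤ π.len) := by
  constructor
  · choose τ h1 h2 using upper
    refine ⟨τ, h1, h2, fun k c δ hc hδ => ?_⟩
    obtain ⟨M0, hM⟩ := asym c (δ / ((k + 1 : ℕ) : ℝ)) hc (by positivity)
    refine ⟨M0 + 2, fun V _ _ N D h hV => ?_⟩
    have e1 : N ≤ N ^ (k + 1) := Nat.le_self_pow (by omega) N
    have e2 : Fintype.card V + 1 ≤ N ^ (k + 1) := by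
      have : 1 ≤ N ^ k := Nat.one_le_pow _ _ (by omega)
      rw [pow_succ]
      nlinarith
    have e3 := hM (N ^ (k + 1)) (Fintype.card V) N (by omega) e2 e1
    have e4 : ((N ^ (k + 1) : ℕ) : ℝ) ^ (δ / ((k + 1 : ℕ) : ℝ)) = (N : ℝ) ^ δ := by
      rw [Nat.cast_pow, ← Real.rpow_natCast, ← Real.rpow_mul (by positivity)]
      congr 1
      field_simp
    rw [e4] at e3
    refine lt_of_le_of_lt ?_ e3
    exact_mod_cast h2 V N D
  · intro V _ _ π h
    simpa using lower π _ _ h

end Pool.Agent.Results.MP_811ee8_lc.Quasi
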